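import Pool.Agent.K1H9.RP.Stm

/-! Project RP (helper9): the combinatorial conclusion `S_COMB`. -/

open scoped BigOperators

namespace Pool.Agent.K1H67.RP

open Pool.Agent.K1H9.RP

theorem mono_of_step (D : ℕ) (s : ℕ → ℝ) (h : ∀ k, 1 ≤ k → 2 * k ≤ D → s (k - 1) < s k) :
    ∀ k k', k < k' → 2 * k' ≤ D → s k < s k' := by
  intro k k' hk
  induction k' with
  | zero => omega
  | succ m ih =>
    intro hm
    have h1 := h (m + 1) (by omega) hm
    simp only [Nat.add_sub_cancel] at h1
    rcases Nat.lt_or_ge k m with h2 | h2
    · exact (ih h2 (by omega)).trans h1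
    · have : k = m := by omega
      subst this; exact h1

theorem choose_id (a b n D j : ℕ) (h : a + b = n + D) (hja : j ≤ a) (hjn : j ≤ n)
    (hb : n - j ≤ b) :
    (a.choose j : ℝ) * (b.choose (n - j) : ℝ) * ((n.factorial : ℝ) * (D.factorial : ℝ)) =
      ((a.factorial : ℝ) * (b.factorial : ℝ)) * ((n.choose j : ℝ) * (D.choose (a - j) : ℝ)) := by
  obtain ⟨p, rfl⟩ := Nat.exists_eq_add_of_le hja
  obtain ⟨m, rfl⟩ := Nat.exists_eq_add_of_le hjn
  have e1 : j + m - j = m := by omega
  rw [e1] at hb ⊢
  obtain ⟨q, rfl⟩ := Nat.exists_eq_add_of_le hb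
  have e2 : j + p - j = p := by omega
  rw [e2]
  have hD : D = p + q := by omega
  subst hD
  have a1 : (j + p).choose j * j.factorial * p.factorial = (j + p).factorial := by
    have := Nat.choose_mul_factorial_mul_factorial (n := j + p) (k := j) (by omega)
    rwa [e2] at this
  have a2 : (m + q).choose m * m.factorial * q.factorial = (m + q).factorial := by
    have := Nat.choose_mul_factorial_mul_factorial (n := m + q) (k := m) (by omega)
    rwa [show m + q - m = q by omega] at this
  have a3 : (j + m).choose j * j.factorial * m.factorial = (j + m).factorial := by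
    have := Nat.choose_mul_factorial_mul_factorial (n := j + m) (k := j) (by omega)
    rwa [e1] at this
  have a4 : (p + q).choose p * p.factorial * q.factorial = (p + q).factorial := by
    have := Nat.choose_mul_factorial_mul_factorial (n := p + q) (k := p) (by omega)
    rwa [show p + q - p = q by omega] at this
  rw [← a1, ← a2, ← a3, ← a4]
  push_cast
  ring

theorem t_COMB : S_COMB := by
  intro n D a b T hn hab hsum H1 H2 H3
  set U : ℕ → ℕ → ℝ := fun j k => T j k - T (n - j) k with hU
  have hUneg : ∀ j k, j ≤ n → U (n - j) k = - U j k := by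
    intro j k hj
    simp only [hU]
    rw [Nat.sub_sub_self hj]; ring
  set f : ℕ → ℝ := fun j => ((a.choose j : ℝ) * ((b.choose (n - j) : ℕ) : ℝ)) * U j (a - j) with hf
  have hfeq : ∑ j ∈ Finset.range (n + 1), ((a.choose j : ℝ) * ((b.choose (n - j) : ℕ) : ℝ)) *
        (T j (a - j) - T (n - j) (a - j)) = ∑ j ∈ Finset.range (n + 1), f j := rfl
  rw [hfeq]
  set g : ℕ → ℝ := fun j => f j + f (n - j) with hg
  have h2 : ∑ j ∈ Finset.range (n + 1), g j = 2 * ∑ j ∈ Finset.range (n + 1), f j := by
    simp only [hg]
    rw [Finset.sum_add_distrib]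
    have := Finset.sum_range_reflect f (n + 1)
    rw [← this]
    simp only [Nat.add_sub_cancel]
    rw [two_mul]
  -- key inequality
  have key : ∀ j, 2 * j < n → 0 ≤ g j ∧ (j ≤ a → n - j ≤ b → 0 < g j) := by
    intro j hj
    have hjn : j ≤ n := by omega
    have hgj : g j = ((a.choose j : ℝ) * ((b.choose (n - j) : ℕ) : ℝ)) * U j (a - j) -
        ((a.choose (n - j) : ℝ) * ((b.choose j : ℕ) : ℝ)) * U j (a - (n - j)) := by
      simp only [hg, hf]
      rw [hUneg j _ hjn, Nat.sub_sub_self hjn]; ring
    have hUpos : ∀ k, k ≤ D → 0 < U j k := fun k hk => sub_pos.2 (H1 j k hj hk)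
    by_cases hc : n - j ≤ a ∧ j ≤ b
    · -- both indices in range
      obtain ⟨hc1, hc2⟩ := hc
      have hja : j ≤ a := by omega
      have hnb : n - j ≤ b := by omega
      have i1 := choose_id a b n D j hsum hja hjn hnb
      have i2 := choose_id a b n D (n - j) hsum hc1 (by omega) (by omega)
      rw [Nat.sub_sub_self hjn, Nat.choose_symm hjn] at i2
      have hfac : (0 : ℝ) < (n.factorial : ℝ) * (D.factorial : ℝ) := by positivity
      have hfac2 : (0 : ℝ) < ((a.factorial : ℝ) * (b.factorial : ℝ)) * (n.choose j : ℝ) := by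
        have : 0 < n.choose j := Nat.choose_pos hjn
        positivity
      set s : ℕ → ℝ := fun k => (D.choose k : ℝ) * U j k with hs
      have hmono := mono_of_step D s (fun k hk1 hk2 => H3 j k hj hk1 hk2)
      have hsym : ∀ k, k ≤ D → s (D - k) = s k := by
        intro k hk
        simp only [hs, hU]
        rw [Nat.choose_symm hk, H2 j k hk, H2 (n - j) k hk]
      have hlt : s (a - (n - j)) < s (a - j) := by
        rcases Nat.lt_or_ge D (2 * (a - j)) with h5 | h5
        · rw [← hsym (a - j) (by omega)]
          apply hmono <;> omega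
        · apply hmono <;> omega
      have hpos : 0 < g j := by
        have : (n.factorial : ℝ) * (D.factorial : ℝ) * g j =
            ((a.factorial : ℝ) * (b.factorial : ℝ)) * (n.choose j : ℝ) *
              (s (a - j) - s (a - (n - j))) := by
          rw [hgj]
          simp only [hs]
          linear_combination (U j (a - j)) * i1 - (U j (a - (n - j))) * i2
        have h6 : 0 < (n.factorial : ℝ) * (D.factorial : ℝ) * g j := by
          rw [this]; exact mul_pos hfac2 (sub_pos.2 hlt)
        exact (mul_pos_iff_of_pos_left hfac).1 h6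
      exact ⟨hpos.le, fun _ _ => hpos⟩
    · -- second product vanishes
      have hz : ((a.choose (n - j) : ℝ) * ((b.choose j : ℕ) : ℝ)) = 0 := by
        rcases Nat.lt_or_ge a (n - j) with h5 | h5
        · rw [Nat.choose_eq_zero_of_lt h5]; simp
        · have : b < j := by
            by_contra h6
            exact hc ⟨h5, by omega⟩
          rw [Nat.choose_eq_zero_of_lt this]; simp
      rw [hz, zero_mul, sub_zero] at hgj
      have hp : j ≤ a → n - j ≤ b → 0 < g j := by
        intro h5 h6
        rw [hgj]
        have h7 : 0 < a.choose j := Nat.choose_pos h5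
        have h8 : 0 < b.choose (n - j) := Nat.choose_pos h6
        have h9 := hUpos (a - j) (by omega)
        positivity
      refine ⟨?_, hp⟩
      by_cases h5 : j ≤ a ∧ n - j ≤ b
      · exact (hp h5.1 h5.2).le
      · rw [hgj]
        have : ((a.choose j : ℝ) * ((b.choose (n - j) : ℕ) : ℝ)) = 0 := by
          rcases Nat.lt_or_ge a j with h6 | h6
          · rw [Nat.choose_eq_zero_of_lt h6]; simp
          · have h7 : b < n - j := by
              by_contra h8
              exact h5 ⟨h6, by omega⟩
            rw [Nat.choose_eq_zero_of_lt h7]; simp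
        rw [this, zero_mul]
  have hgsym : ∀ j, j ≤ n → g (n - j) = g j := by
    intro j hj
    simp only [hg]
    rw [Nat.sub_sub_self hj, add_comm]
  have hnonneg : ∀ j ∈ Finset.range (n + 1), 0 ≤ g j := by
    intro j hj
    rw [Finset.mem_range] at hj
    have hjn : j ≤ n := by omega
    rcases Nat.lt_trichotomy (2 * j) n with h5 | h5 | h5
    · exact (key j h5).1
    · have e : n - j = j := by omega
      have h6 := hUneg j (a - j) hjn
      rw [e] at h6
      have h7 : U j (a - j) = 0 := by linarith
      have h8 : f j = 0 := by simp only [hf]; rw [h7, mul_zero]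
      simp only [hg]
      rw [e, h8]; simp
    · rw [← hgsym j hjn]
      exact (key (n - j) (by omega)).1
  have hpos : ∃ j ∈ Finset.range (n + 1), 0 < g j := by
    rcases Nat.lt_or_ge b n with h5 | h5
    · refine ⟨n - b, Finset.mem_range.2 (by omega), (key (n - b) (by omega)).2 (by omega)
        (by omega)⟩
    · exact ⟨0, Finset.mem_range.2 (by omega), (key 0 (by omega)).2 (by omega) (by omega)⟩
  have h3 : 0 < ∑ j ∈ Finset.range (n + 1), g j := Finset.sum_pos' hnonneg hpos
  rw [h2] at h3
  linarith

end Pool.Agent.K1H67.RP
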