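import Pool.Agent.K1H9.RP.Stm

/-! Project RP (helper9): the crossing lemma `S_CROSS`. -/

open MeasureTheory ProbabilityTheory Filter Topology
open scoped BigOperators

namespace Pool.Agent.K1H67.RP

open Pool.Agent.K1H9.RP

noncomputable def ph (t : ℝ) : ℝ := gaussianPDFReal 0 1 t

theorem ph_eq (t : ℝ) : ph t = (Real.sqrt (2 * Real.pi))⁻¹ * Real.exp (-t ^ 2 / 2) := by
  simp [ph, gaussianPDFReal]

theorem ph_cont : Continuous ph := by
  have : ph = fun t => (Real.sqrt (2 * Real.pi))⁻¹ * Real.exp (-t ^ 2 / 2) := funext ph_eq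
  rw [this]; fun_prop

theorem ph_int : Integrable ph := integrable_gaussianPDFReal 0 1

theorem ph_pos (t : ℝ) : 0 < ph t := gaussianPDFReal_pos 0 1 t (by norm_num)

theorem ph_neg (t : ℝ) : ph (-t) = ph t := by rw [ph_eq, ph_eq]; norm_num

theorem Phi_eq (t : ℝ) : Phi t = ∫ x in Set.Iic t, ph x := by
  unfold Phi G1
  rw [Measure.real, gaussianReal_apply_eq_integral _ (by norm_num)]
  rw [ENNReal.toReal_ofReal]
  · rfl
  · exact integral_nonneg fun x => (ph_pos x).le

theorem Phi_sub (t : ℝ) : Phi t = Phi 0 + ∫ x in (0 : ℝ)..t, ph x := by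
  rw [Phi_eq t, Phi_eq 0, ← intervalIntegral.integral_Iic_sub_Iic ph_int.integrableOn
    ph_int.integrableOn]
  ring

theorem Phi_deriv (t : ℝ) : HasDerivAt Phi (ph t) t := by
  have h := (ph_cont.integral_hasStrictDerivAt 0 t).hasDerivAt
  have h2 := h.const_add (Phi 0)
  exact h2.congr_of_eventuallyEq (Eventually.of_forall fun u => Phi_sub u)

theorem Phi_deriv_neg (t : ℝ) : HasDerivAt (fun u => Phi (-u)) (-ph t) t := by
  have h := (Phi_deriv (-t)).comp t (hasDerivAt_neg t)
  rw [ph_neg] at h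
  refine HasDerivAt.congr_deriv (f := fun u => Phi (-u)) h ?_
  ring

theorem Phi_strict : StrictMono Phi :=
  strictMono_of_hasDerivAt_pos (fun x => Phi_deriv x) fun x => ph_pos x

theorem Phi_nonneg (t : ℝ) : 0 ≤ Phi t := measureReal_nonneg

theorem Phi_pos (t : ℝ) : 0 < Phi t :=
  (Phi_nonneg (t - 1)).trans_lt (Phi_strict (by linarith))

theorem Phi_le (t : ℝ) : Phi t ≤ 1 := by
  unfold Phi G1
  exact measureReal_le_one

theorem Phi_cont : Continuous Phi :=
  continuous_iff_continuousAt.2 fun t => (Phi_deriv t).continuousAt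

theorem Phi_top : Tendsto Phi atTop (𝓝 1) := by
  have h := tendsto_cdf_atTop G1
  have : (fun t => cdf G1 t) = Phi := by
    funext t
    have : IsProbabilityMeasure G1 := by unfold G1; infer_instance
    rw [cdf_eq_real]; rfl
  rw [← this]; exact h

theorem Phi_bot : Tendsto Phi atBot (𝓝 0) := by
  have h := tendsto_cdf_atBot G1
  have : (fun t => cdf G1 t) = Phi := by
    funext t
    have : IsProbabilityMeasure G1 := by unfold G1; infer_instance
    rw [cdf_eq_real]; rfl
  rw [← this]; exact h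

theorem chi_cont (D k : ℕ) : Continuous (chi D k) := by
  unfold chi
  have h := Phi_cont
  fun_prop

theorem chi_nonneg (D k : ℕ) (t : ℝ) : 0 ≤ chi D k t := by
  unfold chi
  exact mul_nonneg (pow_nonneg (Phi_nonneg _) _) (pow_nonneg (Phi_nonneg _) _)

theorem chi_le (D k : ℕ) (t : ℝ) : chi D k t ≤ 1 := by
  unfold chi
  have h1 : Phi (-t) ^ k ≤ 1 := pow_le_one₀ (Phi_nonneg _) (Phi_le _)
  have h2 : Phi t ^ (D - k) ≤ 1 := pow_le_one₀ (Phi_nonneg _) (Phi_le _)
  exact mul_le_one₀ h1 (pow_nonneg (Phi_nonneg _) _) h2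

/-- the antiderivative. -/
noncomputable def GG (D k : ℕ) (t : ℝ) : ℝ := Phi t ^ (D - k + 1) * Phi (-t) ^ k

theorem GG_deriv (D k : ℕ) (hk : 1 ≤ k) (hD : 2 * k ≤ D) (t : ℝ) :
    HasDerivAt (GG D k) (ph t * (((D - k + 1 : ℕ) : ℝ) * chi D k t - (k : ℝ) * chi D (k - 1) t))
      t := by
  have h1 := (Phi_deriv t).pow (D - k + 1)
  have h2 := (Phi_deriv_neg t).pow k
  have h := h1.mul h2
  refine h.congr_deriv ?_
  unfold chi
  simp only [Pi.pow_apply, Nat.add_sub_cancel]
  rw [show D - (k - 1) = D - k + 1 by omega]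
  ring

theorem GG_top (D k : ℕ) (hk : 1 ≤ k) : Tendsto (GG D k) atTop (𝓝 0) := by
  have h1 : Tendsto (fun t => Phi (-t)) atTop (𝓝 0) := Phi_bot.comp tendsto_neg_atTop_atBot
  have h := (Phi_top.pow (D - k + 1)).mul (h1.pow k)
  rw [zero_pow (by omega), mul_zero] at h
  exact h

theorem GG_bot (D k : ℕ) : Tendsto (GG D k) atBot (𝓝 0) := by
  have h1 : Tendsto (fun t => Phi (-t)) atBot (𝓝 1) := Phi_top.comp tendsto_neg_atBot_atTop
  have h := (Phi_bot.pow (D - k + 1)).mul (h1.pow k)
  rw [zero_pow (by omega), zero_mul] at h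
  exact h

theorem GG_gt (D k : ℕ) (hD : 2 * k ≤ D) (T : ℝ) (hT : 0 < T) : GG D k (-T) < GG D k T := by
  unfold GG
  rw [neg_neg]
  obtain ⟨m, hm⟩ : ∃ m, D - k + 1 = k + (m + 1) := ⟨D - 2 * k, by omega⟩
  rw [hm, pow_add _ k (m + 1), pow_add _ k (m + 1)]
  have h1 : Phi (-T) < Phi T := Phi_strict (by linarith)
  have h2 : Phi (-T) ^ (m + 1) < Phi T ^ (m + 1) :=
    pow_lt_pow_left₀ h1 (Phi_nonneg _) (by omega)
  have h3 : 0 < Phi (-T) ^ k * Phi T ^ k :=
    mul_pos (pow_pos (Phi_pos _) _) (pow_pos (Phi_pos _) _)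
  nlinarith [mul_lt_mul_of_pos_left h2 h3]

/-- the general lemma. -/
theorem core (w G : ℝ → ℝ) (hw : Integrable w) (hwc : Continuous w)
    (hG : ∀ t, HasDerivAt G (w t) t) (htop : Tendsto G atTop (𝓝 0))
    (hbot : Tendsto G atBot (𝓝 0)) (hgt : ∀ T, 0 < T → G (-T) < G T)
    (ψ : ℝ → ℝ) (hc : Continuous ψ) (he : ∀ t, ψ (-t) = ψ t)
    (ha : StrictAntiOn ψ (Set.Ici 0)) (h0 : ∀ t, 0 ≤ ψ t) : 0 < ∫ t, w t * ψ t := by
  have habs : ∀ t, ψ |t| = ψ t := by
    intro t
    rcases abs_choice t with h | h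
    · rw [h]
    · rw [h, he]
  have hle : ∀ t, ψ t ≤ ψ 0 := by
    intro t
    rw [← habs t]
    exact ha.antitoneOn (Set.mem_Ici.2 le_rfl) (Set.mem_Ici.2 (abs_nonneg t)) (abs_nonneg t)
  set J : ℝ → ℝ := fun s => ∫ t, Set.indicator {t | s < ψ t} w t with hJ
  -- layer cake
  have hlayer : ∀ t, w t * ψ t = ∫ s in Set.Ioc 0 (ψ 0), Set.indicator {t | s < ψ t} w t := by
    intro t
    have h1 : (fun s => Set.indicator {t | s < ψ t} w t) =
        Set.indicator (Set.Iio (ψ t)) (fun _ => w t) := by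
      funext s
      simp only [Set.indicator, Set.mem_ofPred_eq, Set.mem_Iio]
    rw [h1, setIntegral_indicator measurableSet_Iio]
    rw [setIntegral_const]
    have h2 : Set.Ioc 0 (ψ 0) ∩ Set.Iio (ψ t) = Set.Ioo 0 (ψ t) := by
      ext s
      simp only [Set.mem_inter_iff, Set.mem_Ioc, Set.mem_Iio, Set.mem_Ioo]
      constructor
      · rintro ⟨⟨a, _⟩, c⟩; exact ⟨a, c⟩
      · rintro ⟨a, c⟩; exact ⟨⟨a, (c.trans_le (hle t)).le⟩, c⟩
    rw [h2, Measure.real, Real.volume_Ioo, sub_zero, ENNReal.toReal_ofReal (h0 t)]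
    simp [mul_comm]
  have hprod : Integrable (Function.uncurry fun (t s : ℝ) => Set.indicator {t | s < ψ t} w t)
      (volume.prod (volume.restrict (Set.Ioc 0 (ψ 0)))) := by
    have h1 : Integrable (fun p : ℝ × ℝ => w p.1 * 1)
        (volume.prod (volume.restrict (Set.Ioc 0 (ψ 0)))) :=
      hw.mul_prod (integrable_const (1 : ℝ))
    have h2 : MeasurableSet {p : ℝ × ℝ | p.2 < ψ p.1} :=
      measurableSet_lt measurable_snd (hc.measurable.comp measurable_fst)
    have h3 := h1.indicator h2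
    refine h3.congr (Eventually.of_forall fun p => ?_)
    simp [Function.uncurry, Set.indicator]
  have hswap : ∫ t, w t * ψ t = ∫ s in Set.Ioc 0 (ψ 0), J s := by
    simp_rw [hlayer]
    rw [integral_integral_swap hprod]
  have hJint : Integrable J (volume.restrict (Set.Ioc 0 (ψ 0))) := by
    have := hprod.integral_prod_right
    exact this
  -- value of J
  have hval : ∀ T, 0 < T → J (ψ T) = G T - G (-T) := by
    intro T hT
    have h1 : {t | ψ T < ψ t} = Set.Ioo (-T) T := by
      ext t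
      simp only [Set.mem_ofPred_eq, Set.mem_Ioo]
      rw [← habs t, ← abs_lt]
      exact ha.lt_iff_gt (Set.mem_Ici.2 hT.le) (Set.mem_Ici.2 (abs_nonneg t))
    simp only [hJ]
    rw [h1, integral_indicator measurableSet_Ioo, ← integral_Ioc_eq_integral_Ioo,
      ← intervalIntegral.integral_of_le (by linarith)]
    exact intervalIntegral.integral_eq_sub_of_hasDerivAt (fun x _ => hG x)
      (hwc.intervalIntegrable _ _)
  have huniv : ∫ t, w t = 0 := by
    have := integral_of_hasDerivAt_of_tendsto hG hw hbot htop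
    rw [this]; ring
  have hJnn : ∀ s ∈ Set.Ioc 0 (ψ 0), 0 ≤ J s := by
    intro s hs
    by_cases hT : ∃ T, 0 < T ∧ ψ T = s
    · obtain ⟨T, hT, rfl⟩ := hT
      rw [hval T hT]
      linarith [hgt T hT]
    · rcases eq_or_lt_of_le hs.2 with h5 | h5
      · have : {t | s < ψ t} = ∅ := by
          ext t; simp only [Set.mem_ofPred_eq, Set.mem_empty_iff_false, iff_false, not_lt]
          rw [h5]; exact hle t
        simp only [hJ]
        rw [this]; simp
      · have : {t | s < ψ t} = Set.univ := by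
          ext t
          simp only [Set.mem_ofPred_eq, Set.mem_univ, iff_true]
          by_contra h6
          rw [not_lt, ← habs t] at h6
          obtain ⟨T, hT1, hT2⟩ := intermediate_value_Icc' (abs_nonneg t) hc.continuousOn
            ⟨h6, h5.le⟩
          apply hT
          refine ⟨T, ?_, hT2⟩
          rcases eq_or_lt_of_le hT1.1 with h7 | h7
          · rw [← h7] at hT2; linarith
          · exact h7
        simp only [hJ]
        rw [this, Set.indicator_univ]
        exact huniv.ge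
  rw [hswap]
  have h01 : ψ 1 < ψ 0 := ha (Set.mem_Ici.2 le_rfl) (Set.mem_Ici.2 zero_le_one) one_pos
  rw [setIntegral_pos_iff_support_of_nonneg_ae]
  · have hsub : Set.Ioo (ψ 1) (ψ 0) ⊆ Function.support J ∩ Set.Ioc 0 (ψ 0) := by
      intro s hs
      refine ⟨?_, (h0 1).trans_lt hs.1, hs.2.le⟩
      obtain ⟨T, hT1, hT2⟩ := intermediate_value_Icc' zero_le_one hc.continuousOn
        ⟨hs.1.le, hs.2.le⟩
      have hT : 0 < T := by
        rcases eq_or_lt_of_le hT1.1 with h7 | h7
        · rw [← h7] at hT2; linarith [hs.2]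
        · exact h7
      rw [Function.mem_support, ← hT2, hval T hT]
      exact (sub_pos.2 (hgt T hT)).ne'
    refine lt_of_lt_of_le ?_ (measure_mono hsub)
    rw [Real.volume_Ioo, ENNReal.ofReal_pos]
    linarith
  · refine (ae_restrict_iff' measurableSet_Ioc).2 (Eventually.of_forall hJnn)
  · exact hJint

theorem t_CROSS : S_CROSS := by
  intro ψ hc he ha h0 D k hk hD
  set r : ℝ := Real.sqrt (2 * Real.pi) with hr
  have hrpos : 0 < r := Real.sqrt_pos.2 (by positivity)
  have hexp : ∀ t : ℝ, Real.exp (-t ^ 2 / 2) = r * ph t := by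
    intro t
    rw [ph_eq, ← hr, ← mul_assoc, mul_inv_cancel₀ hrpos.ne', one_mul]
  have hle : ∀ t, ψ t ≤ ψ 0 := by
    intro t
    have habs : ψ |t| = ψ t := by
      rcases abs_choice t with h | h
      · rw [h]
      · rw [h, he]
    rw [← habs]
    exact ha.antitoneOn (Set.mem_Ici.2 le_rfl) (Set.mem_Ici.2 (abs_nonneg t)) (abs_nonneg t)
  have hchi : ∀ i, Integrable (fun t => chi D i t * Real.exp (-t ^ 2 / 2)) := by
    intro i
    have h1 : Integrable (fun t => r * ph t) := ph_int.const_mul r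
    refine h1.mono' ((chi_cont D i).mul (by fun_prop)).aestronglyMeasurable
      (Eventually.of_forall fun t => ?_)
    rw [Real.norm_eq_abs, abs_of_nonneg (mul_nonneg (chi_nonneg _ _ _) (Real.exp_pos _).le),
      ← hexp t]
    exact mul_le_of_le_one_left (Real.exp_pos _).le (chi_le _ _ _)
  have hint : ∀ i, Integrable (fun t => chi D i t * Real.exp (-t ^ 2 / 2) * ψ t) := by
    intro i
    refine ((hchi i).mul_const (ψ 0)).mono'
      (((chi_cont D i).mul (by fun_prop)).mul hc).aestronglyMeasurable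
      (Eventually.of_forall fun t => ?_)
    rw [Real.norm_eq_abs, abs_of_nonneg (mul_nonneg (mul_nonneg (chi_nonneg _ _ _)
      (Real.exp_pos _).le) (h0 t))]
    exact mul_le_mul_of_nonneg_left (hle t) (mul_nonneg (chi_nonneg _ _ _) (Real.exp_pos _).le)
  set N : ℝ := ((D - k + 1 : ℕ) : ℝ) with hN
  have hNpos : 0 < N := by rw [hN]; positivity
  set w : ℝ → ℝ := fun t => ph t * (N * chi D k t - (k : ℝ) * chi D (k - 1) t) with hw
  have hbin : (D.choose k : ℝ) * (k : ℝ) = (D.choose (k - 1) : ℝ) * N := by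
    obtain ⟨m, rfl⟩ : ∃ m, k = m + 1 := ⟨k - 1, by omega⟩
    have := Nat.choose_succ_right_eq D m
    simp only [Nat.add_sub_cancel]
    rw [hN, show D - (m + 1) + 1 = D - m by omega]
    exact_mod_cast this
  have hwint : Integrable w := by
    have e : w = fun t => r⁻¹ * (N * (chi D k t * Real.exp (-t ^ 2 / 2)) -
        (k : ℝ) * (chi D (k - 1) t * Real.exp (-t ^ 2 / 2))) := by
      funext t
      rw [hexp t]
      simp only [hw]
      field_simp
    rw [e]
    exact (((hchi k).const_mul N).sub ((hchi (k - 1)).const_mul (k : ℝ))).const_mul _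
  have hwc : Continuous w := by
    have h1 := chi_cont D k
    have h2 := chi_cont D (k - 1)
    have h3 := ph_cont
    simp only [hw]
    fun_prop
  have hcore := core w (GG D k) hwint hwc (fun t => GG_deriv D k hk hD t) (GG_top D k hk)
    (GG_bot D k) (fun T hT => GG_gt D k hD T hT) ψ hc he ha h0
  have hfin : (D.choose k : ℝ) * (∫ t : ℝ, chi D k t * Real.exp (-t ^ 2 / 2) * ψ t) -
      (D.choose (k - 1) : ℝ) * (∫ t : ℝ, chi D (k - 1) t * Real.exp (-t ^ 2 / 2) * ψ t) =
      (D.choose k : ℝ) * r / N * ∫ t, w t * ψ t := by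
    rw [← integral_const_mul, ← integral_const_mul, ← integral_const_mul, ← integral_sub
      ((hint k).const_mul _) ((hint (k - 1)).const_mul _)]
    refine integral_congr_ae (Eventually.of_forall fun t => ?_)
    simp only [hw]
    rw [hexp t]
    have hb : (D.choose (k - 1) : ℝ) = (D.choose k : ℝ) * (k : ℝ) / N := by
      rw [hbin]; field_simp
    rw [hb]
    field_simp
  have hck : 0 < (D.choose k : ℝ) := by
    have : 0 < D.choose k := Nat.choose_pos (by omega)
    exact_mod_cast this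
  have : 0 < (D.choose k : ℝ) * r / N * ∫ t, w t * ψ t := by positivity
  linarith

end Pool.Agent.K1H67.RP
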