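import Pool.Agent.K1H9.RP.Stm

/-! Project RP (helper9): from one step to the statement of the problem (`S_FIN`). -/

open MeasureTheory ProbabilityTheory Filter Topology
open scoped BigOperators

namespace Pool.Agent.K1H67.RP

open Pool.Agent.K1H9.RP

theorem exists_equiv {α β : Type} [Fintype α] [Fintype β] [DecidableEq α] [DecidableEq β]
    (S : Finset α) (A : Finset β) (h1 : S.card = A.card)
    (h2 : Fintype.card α = Fintype.card β) : ∃ e : α ≃ β, ∀ x, e x ∈ A ↔ x ∈ S := by
  classical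
  have e1 : {x // x ∈ S} ≃ {y // y ∈ A} :=
    Fintype.equivOfCardEq (by rw [Fintype.card_coe, Fintype.card_coe, h1])
  have e2 : {x // ¬ x ∈ S} ≃ {y // ¬ y ∈ A} := by
    apply Fintype.equivOfCardEq
    rw [Fintype.card_subtype_compl, Fintype.card_subtype_compl, Fintype.card_coe,
      Fintype.card_coe, h1, h2]
  refine ⟨((Equiv.sumCompl (· ∈ S)).symm.trans (Equiv.sumCongr e1 e2)).trans
    (Equiv.sumCompl (· ∈ A)), fun x => ?_⟩
  by_cases hx : x ∈ S
  · simp only [Equiv.trans_apply]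
    rw [Equiv.sumCompl_symm_apply_of_pos (p := (· ∈ S)) hx]
    simp only [Equiv.sumCongr_apply, Sum.map_inl, Equiv.sumCompl_apply_inl, hx, iff_true]
    exact (e1 ⟨x, hx⟩).2
  · simp only [Equiv.trans_apply]
    rw [Equiv.sumCompl_symm_apply_of_neg (p := (· ∈ S)) hx]
    simp only [Equiv.sumCongr_apply, Sum.map_inr, Equiv.sumCompl_apply_inr, hx, iff_false]
    exact (e2 ⟨x, hx⟩).2

/-- label: `true` on the first group. -/
def lab {a b : ℕ} (c : Bool) : (Fin a ⊕ Fin b) ⊕ Unit → Bool :=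
  Sum.elim (fun j => j.isLeft) (fun _ => c)

theorem card_lab (a b : ℕ) (c : Bool) :
    ((Finset.univ : Finset ((Fin a ⊕ Fin b) ⊕ Unit)).filter (fun i => lab c i = true)).card =
      a + (if c then 1 else 0) := by
  rw [Finset.card_filter, Fintype.sum_sum_type, Fintype.sum_sum_type]
  simp [lab]

theorem hull_toLp {d : ℕ} (X : Set (Fin d → ℝ)) :
    convexHull ℝ ((WithLp.toLp 2 : (Fin d → ℝ) → EuclideanSpace ℝ (Fin d)) '' X) =
      (WithLp.toLp 2 : (Fin d → ℝ) → EuclideanSpace ℝ (Fin d)) '' (convexHull ℝ X) := by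
  have := LinearMap.image_convexHull
    ((WithLp.linearEquiv 2 ℝ (Fin d → ℝ)).symm : (Fin d → ℝ) →ₗ[ℝ] EuclideanSpace ℝ (Fin d)) X
  exact this.symm

theorem rp_eq (d a b N : ℕ) (c : Bool) (A : Finset (Fin N))
    (e : (Fin a ⊕ Fin b) ⊕ Unit ≃ Fin N) (he : ∀ i, e i ∈ A ↔ lab c i = true) :
    radonProb d N A = (mxz d a b).real
      {q | (convexHull ℝ ((Sum.elim q.1 (fun _ : Unit => q.2)) '' {i | lab c i = true}) ∩
        convexHull ℝ ((Sum.elim q.1 (fun _ : Unit => q.2)) '' {i | lab c i = false})).Nonempty} := by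
  -- the measure preserving equivalence
  have hG : IsProbabilityMeasure G1 := by unfold G1; infer_instance
  have hgv : IsProbabilityMeasure (gv (Fin d)) := by unfold gv; infer_instance
  have m1 : MeasurePreserving (MeasurableEquiv.toLp 2 (Fin d → ℝ)) (gv (Fin d))
      (stdGaussian (EuclideanSpace ℝ (Fin d))) := by
    refine ⟨(MeasurableEquiv.toLp 2 (Fin d → ℝ)).measurable, ?_⟩
    rw [MeasurableEquiv.coe_toLp]
    exact map_pi_eq_stdGaussian
  have m2 := measurePreserving_arrowCongr'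
    (fun _ : (Fin a ⊕ Fin b) ⊕ Unit => gv (Fin d))
    (fun _ : Fin N => stdGaussian (EuclideanSpace ℝ (Fin d))) e
    (MeasurableEquiv.toLp 2 (Fin d → ℝ)) (fun _ => m1)
  have m3 := measurePreserving_sumPiEquivProdPi_symm
    (fun _ : (Fin a ⊕ Fin b) ⊕ Unit => gv (Fin d))
  have m4 : MeasurePreserving
      (MeasurableEquiv.prodCongr (MeasurableEquiv.refl (Fin a ⊕ Fin b → Fin d → ℝ))
        (MeasurableEquiv.funUnique Unit (Fin d → ℝ)).symm)
      (mxz d a b) ((Measure.pi fun _ : Fin a ⊕ Fin b => gv (Fin d)).prod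
        (Measure.pi fun _ : Unit => gv (Fin d))) := by
    have h1 := (MeasurePreserving.id (Measure.pi fun _ : Fin a ⊕ Fin b => gv (Fin d))).prod
      (measurePreserving_funUnique (gv (Fin d)) Unit).symm
    exact h1
  set Θ := ((MeasurableEquiv.prodCongr (MeasurableEquiv.refl (Fin a ⊕ Fin b → Fin d → ℝ))
        (MeasurableEquiv.funUnique Unit (Fin d → ℝ)).symm).trans
      (MeasurableEquiv.sumPiEquivProdPi
        (fun _ : (Fin a ⊕ Fin b) ⊕ Unit => (Fin d → ℝ))).symm).trans
      (MeasurableEquiv.arrowCongr' e (MeasurableEquiv.toLp 2 (Fin d → ℝ))) with hΘ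
  have m5 : MeasurePreserving Θ (mxz d a b)
      (Measure.pi fun _ : Fin N => stdGaussian (EuclideanSpace ℝ (Fin d))) :=
    m2.comp (m3.comp m4)
  have hval : ∀ (q : (Fin a ⊕ Fin b → Fin d → ℝ) × (Fin d → ℝ)) (i : (Fin a ⊕ Fin b) ⊕ Unit),
      Θ q (e i) = WithLp.toLp 2 (Sum.elim q.1 (fun _ : Unit => q.2) i) := by
    intro q i
    have h1 : Θ q (e i) = WithLp.toLp 2 (((MeasurableEquiv.sumPiEquivProdPi
        (fun _ : (Fin a ⊕ Fin b) ⊕ Unit => (Fin d → ℝ))).symm
        (q.1, (MeasurableEquiv.funUnique Unit (Fin d → ℝ)).symm q.2)) (e.symm (e i))) := rfl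
    rw [h1, e.symm_apply_apply]
    rcases i with j | u
    · rfl
    · rfl
  unfold radonProb
  rw [Measure.real, Measure.real, ← m5.measure_preimage_equiv]
  congr 2
  ext q
  simp only [Set.mem_preimage, Set.mem_ofPred_eq]
  have him : ∀ (B : Set (Fin N)) (S : Set ((Fin a ⊕ Fin b) ⊕ Unit)), (∀ i, e i ∈ B ↔ i ∈ S) →
      Θ q '' B = (WithLp.toLp 2 : (Fin d → ℝ) → EuclideanSpace ℝ (Fin d)) ''
        ((Sum.elim q.1 (fun _ : Unit => q.2)) '' S) := by
    intro B S hBS
    have hB : B = e '' S := by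
      ext y
      constructor
      · intro hy
        exact ⟨e.symm y, (hBS _).1 (by rwa [e.apply_symm_apply]), e.apply_symm_apply y⟩
      · rintro ⟨x, hx, rfl⟩
        exact (hBS x).2 hx
    rw [hB, Set.image_image, Set.image_image]
    exact Set.image_congr fun i _ => hval q i
  rw [him (A : Set (Fin N)) {i | lab c i = true} (fun i => by
      simpa using he i),
    him ((A : Set (Fin N))ᶜ) {i | lab c i = false} (fun i => by
      have := he i
      simp only [Set.mem_compl_iff, Finset.mem_coe, Set.mem_ofPred_eq, this]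
      simp)]
  rw [hull_toLp, hull_toLp, ← Set.image_inter (WithLp.toLp_injective 2), Set.image_nonempty]

theorem img_t {d a b : ℕ} (x : Fin a ⊕ Fin b → Fin d → ℝ) (z : Fin d → ℝ) :
    (Sum.elim x (fun _ : Unit => z)) '' {i | lab true i = true} =
      insert z (x '' Set.range Sum.inl) := by
  ext y
  simp only [Set.mem_image, Set.mem_ofPred_eq, Set.mem_insert_iff, Set.mem_range]
  constructor
  · rintro ⟨(j | j) | u, h1, h2⟩
    · exact Or.inr ⟨Sum.inl j, ⟨j, rfl⟩, h2⟩
    · simp [lab] at h1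
    · exact Or.inl h2.symm
  · rintro (h | ⟨_, ⟨j, rfl⟩, h2⟩)
    · exact ⟨Sum.inr (), rfl, h.symm⟩
    · exact ⟨Sum.inl (Sum.inl j), rfl, h2⟩

theorem img_t2 {d a b : ℕ} (x : Fin a ⊕ Fin b → Fin d → ℝ) (z : Fin d → ℝ) :
    (Sum.elim x (fun _ : Unit => z)) '' {i | lab true i = false} = (x '' Set.range Sum.inr) := by
  ext y
  simp only [Set.mem_image, Set.mem_ofPred_eq, Set.mem_range]
  constructor
  · rintro ⟨(j | j) | u, h1, h2⟩
    · simp [lab] at h1
    · exact ⟨Sum.inr j, ⟨j, rfl⟩, h2⟩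
    · simp [lab] at h1
  · rintro ⟨_, ⟨j, rfl⟩, h2⟩
    exact ⟨Sum.inl (Sum.inr j), rfl, h2⟩

theorem img_f {d a b : ℕ} (x : Fin a ⊕ Fin b → Fin d → ℝ) (z : Fin d → ℝ) :
    (Sum.elim x (fun _ : Unit => z)) '' {i | lab false i = true} = (x '' Set.range Sum.inl) := by
  ext y
  simp only [Set.mem_image, Set.mem_ofPred_eq, Set.mem_range]
  constructor
  · rintro ⟨(j | j) | u, h1, h2⟩
    · exact ⟨Sum.inl j, ⟨j, rfl⟩, h2⟩
    · simp [lab] at h1
    · simp [lab] at h1
  · rintro ⟨_, ⟨j, rfl⟩, h2⟩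
    exact ⟨Sum.inl (Sum.inl j), rfl, h2⟩

theorem img_f2 {d a b : ℕ} (x : Fin a ⊕ Fin b → Fin d → ℝ) (z : Fin d → ℝ) :
    (Sum.elim x (fun _ : Unit => z)) '' {i | lab false i = false} =
      insert z (x '' Set.range Sum.inr) := by
  ext y
  simp only [Set.mem_image, Set.mem_ofPred_eq, Set.mem_insert_iff, Set.mem_range]
  constructor
  · rintro ⟨(j | j) | u, h1, h2⟩
    · simp [lab] at h1
    · exact Or.inr ⟨Sum.inr j, ⟨j, rfl⟩, h2⟩
    · exact Or.inl h2.symm
  · rintro (h | ⟨_, ⟨j, rfl⟩, h2⟩)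
    · exact ⟨Sum.inr (), rfl, h.symm⟩
    · exact ⟨Sum.inl (Sum.inr j), rfl, h2⟩

theorem rp_eq_PPp (d a b N : ℕ) (hN : N = a + b + 1) (A : Finset (Fin N)) (hA : A.card = a + 1) :
    radonProb d N A = PPp d a b := by
  obtain ⟨e, he⟩ := exists_equiv
    ((Finset.univ : Finset ((Fin a ⊕ Fin b) ⊕ Unit)).filter (fun i => lab true i = true)) A
    (by rw [card_lab, hA]; simp) (by simp [hN])
  rw [rp_eq d a b N true A e (fun i => by rw [he i]; simp)]
  unfold PPp RadP
  simp only [img_t, img_t2]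

theorem rp_eq_PPm (d a b N : ℕ) (hN : N = a + b + 1) (A : Finset (Fin N)) (hA : A.card = a) :
    radonProb d N A = PPm d a b := by
  obtain ⟨e, he⟩ := exists_equiv
    ((Finset.univ : Finset ((Fin a ⊕ Fin b) ⊕ Unit)).filter (fun i => lab false i = true)) A
    (by rw [card_lab, hA]; simp) (by simp [hN])
  rw [rp_eq d a b N false A e (fun i => by rw [he i]; simp)]
  unfold PPm RadM
  simp only [img_f, img_f2]

theorem t_FIN : S_FIN := by
  intro hstep d N hd hN A A' hlt hle
  have hone : ∀ B B' : Finset (Fin N), B'.card = B.card + 1 → 2 * B'.card ≤ N →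
      radonProb d N B < radonProb d N B' := by
    intro B B' h1 h2
    rw [rp_eq_PPm d B.card (N - 1 - B.card) N (by omega) B rfl,
      rp_eq_PPp d B.card (N - 1 - B.card) N (by omega) B' h1]
    exact hstep d _ _ hd (by omega) (by omega)
  have hind : ∀ m : ℕ, ∀ B B' : Finset (Fin N), B'.card = B.card + m + 1 → 2 * B'.card ≤ N →
      radonProb d N B < radonProb d N B' := by
    intro m
    induction m with
    | zero => intro B B' h1 h2; exact hone B B' (by omega) h2
    | succ m ih =>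
      intro B B' h1 h2
      obtain ⟨B'', hB1, hB2⟩ := Finset.exists_subset_card_eq (s := B') (n := B.card + m + 1)
        (by omega)
      exact (ih B B'' (by omega) (by omega)).trans (hone B'' B' (by omega) h2)
  rw [Finset.card_compl, Fintype.card_fin] at hle
  have hA' : A'.card ≤ N := by simpa using Finset.card_le_univ A'
  exact hind (A'.card - A.card - 1) A A' (by omega) (by omega)

end Pool.Agent.K1H67.RP
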